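import Mathlib
import Pool.Agent.W521.Formula

/-!
# MP_557161_ag: the pole formula for all products of almost all abelian varieties

Let `g i` (`i` in a finite set `I`) be positive integers.  For a prime power `q` let `S i` be the
set of the characteristic polynomials of Frobenius of the ordinary abelian varieties of dimension
`g i` over the field with `q` elements, or of all abelian varieties of dimension `g i`, or any set
in between (by Honda and Tate, `S i` is a set of isogeny classes).

For all families `f i` in `S i`, with the exception of a proportion `O (q ^ (-1 / 6) log q)`, the
following holds for all abelian varieties `A` over the field with `q` elements that are isogenous to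
a product of powers of abelian varieties with the characteristic polynomials `f i`, over all finite
extensions of the ground field, and for all integers `n`: the zeta function of `A` has a pole at
`s = n` whose order is the dimension of the space spanned by the products of `n` classes of
divisors (the classes `y` of degree two with `F y = q y`, by the theorem of Tate), which is the rank
of the group of cycles of codimension `n` modulo numerical equivalence.
-/

set_option autoImplicit false

namespace Pool.Agent.Results.MP_557161_ag.AlmostAllAbelian

open Polynomial Pool.Agent.W521.Descent Pool.Agent.W521.Count Pool.Agent.W521.Formula

/-- `weilPolys q g` is the set of monic integral polynomials of degree `2 g` with constant term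
`q ^ g` and all roots of absolute value `√q`; `ordinaryWeilPolys q g` is the subset of those
whose coefficient of index `g` is prime to `q`.  `PoleFormula q f`: for every finite dimensional
complex vector space `V` with an endomorphism `F` such that `V` is spanned by eigenvectors with
eigenvalues among the roots of the `f i`, for all `s > 0` and all `n`, the order at `n` of the
zeta function of `F ^ s` is the opposite of the dimension of the span of the products of `n`
elements `y` of `⋀ ^ 2 V` with `F y = q y`. -/
theorem result {I : Type} [Fintype I] (g : I → ℕ) (hg : ∀ i, 0 < g i) :
    ∃ C : ℝ, ∀ q : ℕ, IsPrimePow q → ∀ S : I → Set ℤ[X],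
      (∀ i, ordinaryWeilPolys q (g i) ⊆ S i ∧ S i ⊆ weilPolys q (g i)) →
      (∀ i, (S i).Finite ∧ (S i).Nonempty) ∧
      ({f : I → ℤ[X] | (∀ i, f i ∈ S i) ∧ ¬ PoleFormula q f}.ncard : ℝ) ≤
        C * (Real.log q * (q : ℝ) ^ (-(1 / 6) : ℝ)) * ∏ i, ((S i).ncard : ℝ) :=
  formula_count_between g hg

end Pool.Agent.Results.MP_557161_ag.AlmostAllAbelian
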