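import Pool.Agent.TH132.P.Main

/-!
# MP_557161_ag: the defects in the formula of Tate for the products of almost all members with all
varieties of small rank

For a smooth projective variety `Z` over an algebraic closure of a finite field the defect `δ_c(Z)` is
the order of the pole at `s = c` of the zeta function of a model of `Z` over a sufficiently large
finite field, minus the rank of the group of cycles of codimension `c` modulo numerical equivalence.
It is at least zero, and the formula of Tate says that it is zero.

Let `Y` be a smooth projective variety over an algebraic closure of a finite field whose cohomology is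
spanned by algebraic classes, for example a projective space. Let `F i`, for `i` in a finite set, be
families of varieties `X_s` over `Y`, whose cohomology is the sum of the pull-back of the cohomology of
`Y` and of a subspace `P_s` of the cohomology of degree `dim X_s`, with large symplectic or
orthogonal monodromy. Let `E` be a number field in the complex numbers, and let `r` be smaller
than the degrees of the real Weil polynomials of the members.

Then for all `ε > 0` and all large `m`, for all but at most `ε * ∏ i, #S_i(m)` of the tuples `s` in the
product of the sets `S_i(m)` of the parameters with coordinates in the field with `p ^ m` elements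
(for which the eigenvectors in `P_s` with a forced Frobenius eigenvalue `± q ^ (n / 2)`,
`n = dim X_s`, if there are any, are algebraic), for **all products** `X` of copies of `Y` and of the
members `X_{i, s_i}` and for **all** varieties `U` for which the eigenvalues of the Frobenius
endomorphism on the cohomology of `U` have rank at most `r` over `E`, and all `c`:

* the rank of the cycles modulo numerical equivalence satisfies
  `ρ_c(X × U) = ∑_{i + j = c} ρ_i(X) ρ_j(U)`;
* **`δ_c(X × U) = ∑_{i + j = c} ρ_i(X) δ_j(U)`**;
* in particular the formula of Tate holds for `X × U` in codimension `c` if and only if it holds for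
  `U` in all codimensions `j = c - i` such that `ρ_i(X) ≠ 0`.

Nothing is assumed on `U`: neither the Tate conjecture, nor the semisimplicity of Frobenius, nor the
coincidence of homological and numerical equivalence. The Riemann hypothesis (the theorem of
Deligne) is a hypothesis of the theorem.
-/

set_option autoImplicit false

open CategoryTheory AlgebraicGeometry Polynomial

universe u v

namespace Pool.Agent.Results.MP_557161_ag.DefectsOfProducts

open Pool.Agent.H914 Pool.Agent.W534 Pool.Agent.W458.MF VarClass Obj WeilCohomology
  Pool.Agent.H281R3.HT Pool.Agent.W458.RK Pool.Agent.TH132.P

/-- **The defects in the formula of Tate for the products of almost all members with all varieties of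
small Frobenius rank.** -/
theorem result {k : Type u} [Field k] {𝒱 : VarClass k} {ops : CycleOps 𝒱}
    (W : WeilCohomology.{u, v} ops) [IsAlgClosed W.K] (σ : W.K →+* ℂ) (p : ℕ)
    (hp : p.Prime) (Φ : FrobSystem W p) (hRH : ∀ Z : 𝒱.Obj, RiemannHyp Φ σ Z) (Y : 𝒱.Obj)
    (hY : ∀ x : W.H Y, x ∈ algSpan W Y) {I : Type} [Fintype I] (F : I → Family W Y) (e : I → ℕ)
    (hF : ∀ i, Pol.HasLargeMonodromy (F i) Φ (e i)) (E : Subfield ℂ) [NumberField E] (r : ℕ)
    (hr : ∀ i m (s : (F i).S m), r < ((F i).member m s).pol.natDegree) (ε : ℝ) (hε : 0 < ε) :
    ∃ m₀ : ℕ, ∀ m ≥ m₀, ((badTuples F m (fun i P => e i ≠ 0 → ForcedTate p P m)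
      (DefectsTimes Φ σ E r)).ncard : ℝ) ≤ ε * ∏ i, (Nat.card ((F i).S m) : ℝ) :=
  final_defects W σ p hp Φ hRH Y hY F e hF E r hr ε hε

end Pool.Agent.Results.MP_557161_ag.DefectsOfProducts
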