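import Pool.Agent.W534.PoleD

/-!
# MP_557161_ag: the pole formula for the product of a variety and a hyperplane section

Let `X` be a smooth proper variety over an algebraic closure of a finite field, `Y` a smooth
hyperplane section of `X`, of dimension `dim X - 1`.  The formula for the order of the pole of the
zeta function of `X × Y` at the single integer `s = dim Y` (or `s = dim X`) is equivalent to the
formula at all integers, and to the Tate conjecture together with the semisimplicity of Frobenius
for the classes of degree `2 dim Y`, without any assumption on the intersection numbers of cycles.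
It implies the formula for `X` and for `Y` at all integers and the Lefschetz standard conjecture
for `X`.
-/

open CategoryTheory AlgebraicGeometry Finset

universe u v

namespace Pool.Agent.Results.MP_557161_ag.HyperplaneSection

open Pool.Agent.H914 Pool.Agent.H447 Pool.Agent.W534 VarClass Obj WeilCohomology

/-- **The orders of the poles of the zeta function of the product of a variety and a hyperplane
section.** -/
theorem result {k : Type u} [Field k] {𝒱 : VarClass k} {ops : CycleOps 𝒱}
    {W : WeilCohomology.{u, v} ops} {X Y : 𝒱.Obj} {p : ℕ} {Φ : FrobSystem W p} {σ : W.K →+* ℂ}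
    {i : Y ⟶ X} {D : X.Cycles} (hp : 1 < p) (hRH : ∀ Z, RiemannHyp Φ σ Z)
    (hdim : X.dim = Y.dim + 1) (hD : X.IsCyc 1 D)
    (hY : W.cl X (ops.push i Y.V.fundCycle) = W.cl X D) (hHL : HardLefschetz W X D)
    (hWL : WeakLefschetz W i) :
    List.TFAE [
      PoleFormula Φ σ (X.prod Y) Y.dim,
      PoleFormula Φ σ (X.prod Y) X.dim,
      ∀ j ≤ (X.prod Y).dim, PoleFormula Φ σ (X.prod Y) j,
      SemisimpleTateIn Φ (X.prod Y) Y.dim] ∧
    (PoleFormula Φ σ (X.prod Y) Y.dim →
      LefschetzB W X D ∧ (∀ j ≤ X.dim, PoleFormula Φ σ X j) ∧
        ∀ j ≤ Y.dim, PoleFormula Φ σ Y j) :=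
  ⟨pole_hyperplane hp hRH hdim hD hY hHL hWL, pole_factors hp hRH hdim hD hY hHL hWL⟩

end Pool.Agent.Results.MP_557161_ag.HyperplaneSection
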